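import Pool.Agent.Q221.SymFn.Final

set_option autoImplicit false

/-!
# Any-dimensional non-negativity of symmetric functions is undecidable

Reduction from Hilbert's tenth problem. The non-negative symmetric function
`E = e(x_1) + e(x_2) + ...`, `e = (y (y + 1) (y - 1) ... (y - K))² (1 + y²)^m`, vanishes iff all
`x_i` lie in `{0, -1, 1, ..., K}`, and then the multiplicities `N_j` of the values are natural
numbers that are linear combinations of power sums. For suitable constants the function
`P(N)² + (N_0 - n)² - 1/2 + 2 M (n + 1) (1 + p_2)^T E` is non-negative iff `P(n, ·) = 0` has no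
solution in natural numbers. It is homogenized with `p_1` (the value `-1` is used to arrange
`p_1 = 1`).

The definitions are in `Pool.Agent.Q221.SymFn.Def`.
-/

namespace Pool.Agent.Results.MP_9c9736_lc.NonnegUndecidable

open Pool.Agent.Q221.SymFn

/-- Every `g ∈ ℚ[p_1, p_2, ...]` has a code; no algorithm decides, given a code of `g`, whether
`g` is any-dimensional non-negative; and no algorithm gives the correct answer for all homogeneous
symmetric functions of positive even degree. -/
theorem result :
    (∀ g : MvPolynomial ℕ ℚ, ∃ c : Code, poly c = g) ∧
    (¬ ComputablePred fun c : Code => AnyDimNonneg (poly c)) ∧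
    ∀ A : Code → Bool, Computable A → ∃ (c : Code) (d : ℕ), Even d ∧ 0 < d ∧ IsHom (poly c) d ∧
      ¬ (A c = true ↔ AnyDimNonneg (poly c)) :=
  ⟨exists_code, not_computable_of _ undecidable_nonneg, undecidable_nonneg⟩

end Pool.Agent.Results.MP_9c9736_lc.NonnegUndecidable
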