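import Pool.Agent.Q221.SymFn.Final

set_option autoImplicit false

/-!
# Any-dimensional positivity of symmetric functions is undecidable

The same reduction from Hilbert's tenth problem as for non-negativity: the homogeneous symmetric
functions constructed there are positive definite in every number of variables if the Diophantine
equation has no solution, and take negative values if it has one.

The definitions are in `Pool.Agent.Q221.SymFn.Def`.
-/

namespace Pool.Agent.Results.MP_9c9736_lc.PositivityUndecidable

open Pool.Agent.Q221.SymFn

/-- Every `g ∈ ℚ[p_1, p_2, ...]` has a code; no algorithm decides, given a code of `g`, whether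
`g` is any-dimensional positive; and no algorithm gives the correct answer for all homogeneous
symmetric functions of positive even degree (positive definiteness of every truncation). -/
theorem result :
    (∀ g : MvPolynomial ℕ ℚ, ∃ c : Code, poly c = g) ∧
    (¬ ComputablePred fun c : Code => AnyDimPos (poly c)) ∧
    ∀ A : Code → Bool, Computable A → ∃ (c : Code) (d : ℕ), Even d ∧ 0 < d ∧ IsHom (poly c) d ∧
      ¬ (A c = true ↔ AnyDimPos (poly c)) :=
  ⟨exists_code, not_computable_of _ undecidable_pos, undecidable_pos⟩

end Pool.Agent.Results.MP_9c9736_lc.PositivityUndecidable
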